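import Pool.Agent.Helper28.LV.StN

set_option autoImplicit false

/-!
# Project LV, QFB: from the system `F_D` to a symbol of level one
-/

open Pool.Agent.Helper14.CV (G0 Homog EqC act StFar)
open Pool.Agent.Helper28.WK Pool.Agent.Helper28.LV
open Pool.Agent.Helper14.WK

namespace Pool.Agent.Helper98.LV

/-- Uniqueness of the coefficients of a binary form. -/
private theorem coef_unique {K : Type} [Field K] [Infinite K] (n : ℕ) (c d : ℕ → K)
    (h : ∀ r s : K, ∑ t ∈ Finset.range (n + 1), c t * (r ^ t * s ^ (n - t)) =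
      ∑ t ∈ Finset.range (n + 1), d t * (r ^ t * s ^ (n - t))) :
    ∀ t : ℕ, t ≤ n → c t = d t := by
  intro t ht
  have hp : (∑ i ∈ Finset.range (n + 1), Polynomial.C (c i) * Polynomial.X ^ i : Polynomial K) =
      ∑ i ∈ Finset.range (n + 1), Polynomial.C (d i) * Polynomial.X ^ i := by
    refine Polynomial.funext fun r => ?_
    have h1 := h r 1
    simp only [one_pow, mul_one] at h1
    simpa [Polynomial.eval_finsetSum] using h1
  have h2 := congrArg (fun P : Polynomial K => P.coeff t) hp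
  simpa [Polynomial.finsetSum_coeff, Polynomial.coeff_C_mul, Polynomial.coeff_X_pow,
    Finset.sum_ite_eq, Finset.mem_range, Nat.lt_succ_of_le ht] using h2

/-- The restriction of a function in `Rg` to `(r, s, r, s)`. -/
private theorem rg_diag {p : ℕ} [Fact p.Prime] (a : ℕ)
    (G : ℚ_[p] → ℚ_[p] → ℚ_[p] → ℚ_[p] → ℚ_[p]) (hG : Rg a G) :
    ∃ q : ℕ → ℚ_[p], ∀ r s : ℚ_[p], G r s r s =
      ∑ t ∈ Finset.range (2 * a + 1), q t * (r ^ t * s ^ (2 * a - t)) := by
  obtain ⟨P, hP⟩ := hG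
  refine ⟨fun t => ∑ i ∈ Finset.range (a + 1), ∑ j ∈ Finset.range (a + 1),
    if a - i + j = t then P i j else 0, fun r s => ?_⟩
  rw [hP]
  simp only [Finset.sum_mul]
  symm
  rw [Finset.sum_comm]
  refine Finset.sum_congr rfl fun i hi => ?_
  rw [Finset.sum_comm]
  refine Finset.sum_congr rfl fun j hj => ?_
  have hi' : i ≤ a := Nat.lt_succ_iff.mp (Finset.mem_range.mp hi)
  have hj' : j ≤ a := Nat.lt_succ_iff.mp (Finset.mem_range.mp hj)
  rw [Finset.sum_eq_single_of_mem (a - i + j) (Finset.mem_range.mpr (by omega))]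
  · rw [if_pos rfl]
    have e : 2 * a - (a - i + j) = i + (a - j) := by omega
    rw [e, pow_add, pow_add]
    ring
  · intro t _ ht
    rw [if_neg (Ne.symm ht), zero_mul]

/-- The coefficients of `(A X + B)^n` paired with a sequence. -/
private theorem pair_pow {K : Type} [Field K] (n : ℕ) (A B : K) (ψ : ℕ → K) :
    ∑ t ∈ Finset.range (n + 1),
      ((Polynomial.C A * Polynomial.X + Polynomial.C B) ^ n : Polynomial K).coeff t * ψ t =
    ∑ t ∈ Finset.range (n + 1), ((n.choose t : K) * ψ t) * (A ^ t * B ^ (n - t)) := by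
  refine Finset.sum_congr rfl fun t ht => ?_
  have ht' : t ≤ n := Nat.lt_succ_iff.mp (Finset.mem_range.mp ht)
  have e : ((Polynomial.C A * Polynomial.X + Polynomial.C B) ^ n : Polynomial K).coeff t =
      A ^ t * B ^ (n - t) * (n.choose t : K) := by
    rw [add_pow, Polynomial.finsetSum_coeff]
    rw [Finset.sum_eq_single_of_mem t ht]
    · have e1 : (Polynomial.C A * Polynomial.X) ^ t * Polynomial.C B ^ (n - t) *
          ((n.choose t : ℕ) : Polynomial K) =
          Polynomial.C (A ^ t * B ^ (n - t) * (n.choose t : K)) * Polynomial.X ^ t := by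
        simp only [mul_pow, Polynomial.C_mul, Polynomial.C_pow, map_natCast]
        ring
      rw [e1, Polynomial.coeff_C_mul, Polynomial.coeff_X_pow, if_pos rfl, mul_one]
    · intro m _ hm
      have e1 : (Polynomial.C A * Polynomial.X) ^ m * Polynomial.C B ^ (n - m) *
          ((n.choose m : ℕ) : Polynomial K) =
          Polynomial.C (A ^ m * B ^ (n - m) * (n.choose m : K)) * Polynomial.X ^ m := by
        simp only [mul_pow, Polynomial.C_mul, Polynomial.C_pow, map_natCast]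
        ring
      rw [e1, Polynomial.coeff_C_mul, Polynomial.coeff_X_pow, if_neg (Ne.symm hm), mul_zero]
  rw [e]
  ring

/-- The same with the binomial expansion of `r (αX+β) + s (γX+δ)`. -/
private theorem pair_bin {K : Type} [Field K] (n : ℕ) (α β γ δ r s : K) (ψ : ℕ → K) :
    ∑ t ∈ Finset.range (n + 1), ((n.choose t : K) * ψ t) *
      ((r * α + s * γ) ^ t * (r * β + s * δ) ^ (n - t)) =
    ∑ i ∈ Finset.range (n + 1), ((n.choose i : K) * ∑ t ∈ Finset.range (n + 1),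
      ((Polynomial.C α * Polynomial.X + Polynomial.C β) ^ i *
        (Polynomial.C γ * Polynomial.X + Polynomial.C δ) ^ (n - i) : Polynomial K).coeff t * ψ t) *
      (r ^ i * s ^ (n - i)) := by
  rw [← pair_pow]
  have e : (Polynomial.C (r * α + s * γ) * Polynomial.X + Polynomial.C (r * β + s * δ) :
      Polynomial K) = Polynomial.C r * (Polynomial.C α * Polynomial.X + Polynomial.C β) +
      Polynomial.C s * (Polynomial.C γ * Polynomial.X + Polynomial.C δ) := by
    simp only [Polynomial.C_add, Polynomial.C_mul]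
    ring
  have e2 : ((Polynomial.C (r * α + s * γ) * Polynomial.X + Polynomial.C (r * β + s * δ)) ^ n :
      Polynomial K) = ∑ i ∈ Finset.range (n + 1),
      Polynomial.C ((n.choose i : K) * (r ^ i * s ^ (n - i))) *
        ((Polynomial.C α * Polynomial.X + Polynomial.C β) ^ i *
        (Polynomial.C γ * Polynomial.X + Polynomial.C δ) ^ (n - i)) := by
    rw [e, add_pow]
    refine Finset.sum_congr rfl fun i _ => ?_
    simp only [mul_pow, Polynomial.C_mul, Polynomial.C_pow, map_natCast]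
    ring
  rw [e2]
  simp only [Polynomial.finsetSum_coeff, Polynomial.coeff_C_mul, Finset.sum_mul, Finset.mul_sum]
  rw [Finset.sum_comm]
  refine Finset.sum_congr rfl fun i _ => Finset.sum_congr rfl fun t _ => ?_
  ring

private theorem deg_le (a i : ℕ) (hi : i ≤ 2 * a) (α β γ δ : ℤ) :
    ((Polynomial.C α * Polynomial.X + Polynomial.C β) ^ i *
      (Polynomial.C γ * Polynomial.X + Polynomial.C δ) ^ (2 * a - i) :
      Polynomial ℤ).natDegree < 2 * a + 1 := by
  have h1 : ∀ x y : ℤ, (Polynomial.C x * Polynomial.X + Polynomial.C y :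
      Polynomial ℤ).natDegree ≤ 1 := fun x y => Polynomial.natDegree_linear_le
  have h2 := Polynomial.natDegree_mul_le (p := (Polynomial.C α * Polynomial.X + Polynomial.C β) ^ i)
    (q := (Polynomial.C γ * Polynomial.X + Polynomial.C δ) ^ (2 * a - i))
  have h3 := Polynomial.natDegree_pow_le_of_le i (h1 α β)
  have h4 := Polynomial.natDegree_pow_le_of_le (2 * a - i) (h1 γ δ)
  omega

private theorem pr_cast {p : ℕ} [Fact p.Prime] (a i : ℕ) (hi : i ≤ 2 * a) (α β γ δ : ℤ)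
    (Ψ : ℤ → ℤ → ℕ → ℚ_[p]) (x y : ℤ) :
    pr Ψ ((Polynomial.C α * Polynomial.X + Polynomial.C β) ^ i *
      (Polynomial.C γ * Polynomial.X + Polynomial.C δ) ^ (2 * a - i)) x y =
    ∑ t ∈ Finset.range (2 * a + 1),
      ((Polynomial.C (α : ℚ_[p]) * Polynomial.X + Polynomial.C (β : ℚ_[p])) ^ i *
        (Polynomial.C (γ : ℚ_[p]) * Polynomial.X + Polynomial.C (δ : ℚ_[p])) ^ (2 * a - i) :
        Polynomial ℚ_[p]).coeff t * Ψ x y t := by
  rw [pr_eq_sum Ψ _ (2 * a + 1) (deg_le a i hi α β γ δ)]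
  simp only [Finset.sum_apply, Pi.smul_apply, cp]
  refine Finset.sum_congr rfl fun t _ => ?_
  have e : ((Polynomial.C (α : ℚ_[p]) * Polynomial.X + Polynomial.C (β : ℚ_[p])) ^ i *
        (Polynomial.C (γ : ℚ_[p]) * Polynomial.X + Polynomial.C (δ : ℚ_[p])) ^ (2 * a - i) :
        Polynomial ℚ_[p]) = (((Polynomial.C α * Polynomial.X + Polynomial.C β) ^ i *
      (Polynomial.C γ * Polynomial.X + Polynomial.C δ) ^ (2 * a - i) : Polynomial ℤ).map
        (Int.castRingHom ℚ_[p])) := by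
    simp [Polynomial.map_mul, Polynomial.map_pow, Polynomial.map_add]
  rw [e, Polynomial.coeff_map, zsmul_eq_mul]
  rfl

theorem hQFb : StQFb := by
  intro hRT p hp a Φ F hF
  obtain ⟨hrg, hadd, hhom, heq, hrel⟩ := hF
  have hp0 : (p : ℚ_[p]) ≠ 0 := by exact_mod_cast hp.out.ne_zero
  have hpz : (p : ℤ) ≠ 0 := by exact_mod_cast hp.out.ne_zero
  have h10 : ((1 : ℤ) ≠ 0 ∨ (0 : ℤ) ≠ 0) := Or.inl one_ne_zero
  have hch : ∀ t : ℕ, t ≤ 2 * a → (((2 * a).choose t : ℕ) : ℚ_[p]) ≠ 0 := fun t ht => by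
    exact_mod_cast (Nat.choose_pos ht).ne'
  -- the potentials
  have hex : ∀ x y : ℤ, ∃ ψ : ℕ → ℚ_[p], (x ≠ 0 ∨ y ≠ 0) → ∀ r s : ℚ_[p], F 1 0 x y r s r s =
      ∑ t ∈ Finset.range (2 * a + 1), ((((2 * a).choose t : ℕ) : ℚ_[p]) * ψ t) *
        (r ^ t * s ^ (2 * a - t)) := by
    intro x y
    by_cases hxy : x ≠ 0 ∨ y ≠ 0
    · obtain ⟨q, hq⟩ := rg_diag a _ (hrg 1 0 x y h10 hxy)
      refine ⟨fun t => q t / (((2 * a).choose t : ℕ) : ℚ_[p]), fun _ r s => ?_⟩
      rw [hq]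
      refine Finset.sum_congr rfl fun t ht => ?_
      rw [mul_div_cancel₀ _ (hch t (Nat.lt_succ_iff.mp (Finset.mem_range.mp ht)))]
    · exact ⟨0, fun h => absurd h hxy⟩
  choose Ψ hΨ using hex
  -- two arbitrary cusps
  have hD : ∀ v1 v2 w1 w2 : ℤ, (v1 ≠ 0 ∨ v2 ≠ 0) → (w1 ≠ 0 ∨ w2 ≠ 0) → ∀ r s : ℚ_[p],
      F v1 v2 w1 w2 r s r s = ∑ t ∈ Finset.range (2 * a + 1),
        ((((2 * a).choose t : ℕ) : ℚ_[p]) * (Ψ w1 w2 t - Ψ v1 v2 t)) *
        (r ^ t * s ^ (2 * a - t)) := by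
    intro v1 v2 w1 w2 hv hw r s
    have h1 := hadd 1 0 v1 v2 w1 w2 h10 hv hw r s r s
    rw [hΨ v1 v2 hv, hΨ w1 w2 hw] at h1
    rw [eq_sub_of_add_eq' h1, ← Finset.sum_sub_distrib]
    exact Finset.sum_congr rfl fun t _ => by ring
  have hH : ∀ i : ℕ, i ≤ 2 * a → Homog (cp Ψ i) := by
    intro i hi k x y hk hxy
    have hkxy : k * x ≠ 0 ∨ k * y ≠ 0 := by
      rcases hxy with h | h
      · exact Or.inl (mul_ne_zero hk h)
      · exact Or.inr (mul_ne_zero hk h)
    have h1 := coef_unique (2 * a) _ _ (fun r s => (hΨ (k * x) (k * y) hkxy r s).symm.trans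
      ((hhom 1 0 x y k h10 hxy hk r s r s).trans (hΨ x y hxy r s))) i hi
    exact mul_left_cancel₀ (hch i hi) h1
  have hI : ∀ i : ℕ, i ≤ 2 * a → Ψ 1 0 i = 0 := by
    intro i hi
    have h1 := coef_unique (2 * a) (fun t => (((2 * a).choose t : ℕ) : ℚ_[p]) * Ψ 1 0 t)
      (fun _ => 0) (fun r s => by
        rw [← hΨ 1 0 h10 r s]
        have h2 := hadd 1 0 1 0 1 0 h10 h10 h10 r s r s
        have h3 : F 1 0 1 0 r s r s = 0 := by linear_combination h2
        rw [h3]
        simp) i hi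
    exact (mul_eq_zero.mp h1).resolve_left (hch i hi)
  refine ⟨Ψ, hH, hI, ?_, ?_⟩
  · -- equivariance
    intro α β γ δ hdet i hi
    refine ⟨Ψ α γ i, fun x y hxy => ?_⟩
    have hd0 : α * δ - β * γ ≠ 0 := by rw [hdet]; exact one_ne_zero
    have hk : α * x + β * y ≠ 0 ∨ γ * x + δ * y ≠ 0 :=
      Pool.Agent.Helper14.CV.ne_zero_of_det hd0 hxy
    have hk1 : α ≠ 0 ∨ γ ≠ 0 := by
      have := Pool.Agent.Helper14.CV.ne_zero_of_det hd0 h10
      simpa using this
    have h1 := coef_unique (2 * a)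
      (fun t => (((2 * a).choose t : ℕ) : ℚ_[p]) * (Ψ (α * x + β * y) (γ * x + δ * y) t - Ψ α γ t))
      (fun j => (((2 * a).choose j : ℕ) : ℚ_[p]) * ∑ t ∈ Finset.range (2 * a + 1),
        ((Polynomial.C (α : ℚ_[p]) * Polynomial.X + Polynomial.C (β : ℚ_[p])) ^ j *
        (Polynomial.C (γ : ℚ_[p]) * Polynomial.X + Polynomial.C (δ : ℚ_[p])) ^ (2 * a - j) :
        Polynomial ℚ_[p]).coeff t * Ψ x y t)
      (fun r s => by
        rw [← hD α γ _ _ hk1 hk r s]
        have h2 := heq 1 0 x y h10 hxy α β γ δ hdet r s r s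
        rw [mul_one, mul_zero, add_zero, mul_one, mul_zero, add_zero] at h2
        rw [h2, hΨ x y hxy]
        exact pair_bin (2 * a) (α : ℚ_[p]) β γ δ r s (Ψ x y)) i hi
    have h3 := mul_left_cancel₀ (hch i hi) h1
    rw [pr_cast a i hi α β γ δ Ψ x y, ← h3]
    show Ψ (α * x + β * y) (γ * x + δ * y) i = _
    ring
  · -- the relation
    intro t ht x y hxy
    have hp1 : ((p : ℤ) * 1 ≠ 0 ∨ (0 : ℤ) ≠ 0) := Or.inl (by rw [mul_one]; exact hpz)
    have hpx : ((p : ℤ) * x ≠ 0 ∨ y ≠ 0) := by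
      rcases hxy with h | h
      · exact Or.inl (mul_ne_zero hpz h)
      · exact Or.inr h
    have hP0 : ∀ i : ℕ, i ≤ 2 * a → Ψ ((p : ℤ) * 1) 0 i = 0 := by
      intro i hi
      have := hH i hi (p : ℤ) 1 0 hpz h10
      simp only [cp, mul_zero] at this
      rw [this, hI i hi]
    have h1 := coef_unique (2 * a)
      (fun t => 4 * ((((2 * a).choose t : ℕ) : ℚ_[p]) * (((Φ x y t - Φ 1 0 t : ℤ_[p]) : ℚ_[p]))))
      (fun t => (((2 * a).choose t : ℕ) : ℚ_[p]) *
        ((1 / (p : ℚ_[p])) ^ a * (p : ℚ_[p]) ^ (2 * a - t) * Ψ (p * x) y t - Ψ x y t))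
      (fun r s => by
        have h2 := hrel 1 0 x y h10 hxy r s r s
        have h3 : EGf a Φ 1 0 x y r s r s = ∑ t ∈ Finset.range (2 * a + 1),
            ((((2 * a).choose t : ℕ) : ℚ_[p]) * ((Φ x y t - Φ 1 0 t : ℤ_[p]) : ℚ_[p])) *
            (r ^ t * s ^ (2 * a - t)) := by
          unfold EGf
          rw [← pow_add, ← two_mul]
          exact pair_pow (2 * a) r s (fun t => ((Φ x y t - Φ 1 0 t : ℤ_[p]) : ℚ_[p]))
        have h4 : F (p * 1) 0 (p * x) y r (p * s) (r / p) s =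
            (1 / (p : ℚ_[p])) ^ a * F (p * 1) 0 (p * x) y r (p * s) r (p * s) := by
          have h5 := (hRT p hp a _ (hrg (p * 1) 0 (p * x) y hp1 hpx)).2.2.2.2 1 (1 / (p : ℚ_[p]))
            r (p * s) r (p * s)
          rw [one_mul, one_mul, one_mul] at h5
          rw [← h5]
          congr 1
          · field_simp
          · field_simp
        rw [h3, h4, hD _ _ _ _ hp1 hpx, hΨ x y hxy] at h2
        calc _ = 4 * ∑ t ∈ Finset.range (2 * a + 1),
            ((((2 * a).choose t : ℕ) : ℚ_[p]) * ((Φ x y t - Φ 1 0 t : ℤ_[p]) : ℚ_[p])) *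
            (r ^ t * s ^ (2 * a - t)) := by
              rw [Finset.mul_sum]
              exact Finset.sum_congr rfl fun t _ => by ring
          _ = _ := h2
          _ = _ := by
              rw [Finset.mul_sum, ← Finset.sum_sub_distrib]
              refine Finset.sum_congr rfl fun t ht => ?_
              rw [hP0 t (Nat.lt_succ_iff.mp (Finset.mem_range.mp ht)), mul_pow]
              ring) t ht
    have h6 : 4 * (((Φ x y t - Φ 1 0 t : ℤ_[p]) : ℚ_[p])) =
        (1 / (p : ℚ_[p])) ^ a * (p : ℚ_[p]) ^ (2 * a - t) * Ψ (p * x) y t - Ψ x y t := by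
      refine mul_left_cancel₀ (hch t ht) ?_
      rw [← h1]
      ring
    have h7 : (p : ℚ_[p]) ^ t * ((1 / (p : ℚ_[p])) ^ a * (p : ℚ_[p]) ^ (2 * a - t)) =
        (p : ℚ_[p]) ^ a := by
      have e : (p : ℚ_[p]) ^ t * (p : ℚ_[p]) ^ (2 * a - t) = (p : ℚ_[p]) ^ a * (p : ℚ_[p]) ^ a := by
        rw [← pow_add, ← pow_add]
        congr 1
        omega
      have e2 : (1 / (p : ℚ_[p])) ^ a * (p : ℚ_[p]) ^ a = 1 := by
        rw [← mul_pow, one_div_mul_cancel hp0, one_pow]
      calc _ = (1 / (p : ℚ_[p])) ^ a * ((p : ℚ_[p]) ^ t * (p : ℚ_[p]) ^ (2 * a - t)) := by ring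
        _ = ((1 / (p : ℚ_[p])) ^ a * (p : ℚ_[p]) ^ a) * (p : ℚ_[p]) ^ a := by rw [e]; ring
        _ = _ := by rw [e2, one_mul]
    simp only [zsmul_eq_mul, Int.cast_mul, Int.cast_pow, Int.cast_natCast, Int.cast_ofNat]
    rw [PadicInt.coe_sub] at h6
    calc _ = (p : ℚ_[p]) ^ t * (4 * ((Φ x y t : ℚ_[p]) - (Φ 1 0 t : ℚ_[p]))) := by ring
      _ = (p : ℚ_[p]) ^ t * ((1 / (p : ℚ_[p])) ^ a * (p : ℚ_[p]) ^ (2 * a - t)) * Ψ (p * x) y t -
          (p : ℚ_[p]) ^ t * Ψ x y t := by rw [h6]; ring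
      _ = _ := by rw [h7]

end Pool.Agent.Helper98.LV
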